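import Pool.Agent.H96.LV7

namespace Pool.Agent.Results.MP_9152e2_an.NoQ1

open MeasureTheory Pool.Agent.H96.LV

theorem result : ∃ (G : Type) (_ : NormedAddCommGroup G) (_ : CompleteSpace G)
    (_ : TopologicalSpace.SeparableSpace G) (_ : MeasurableSpace G) (_ : BorelSpace G),
    IsLevy G ∧ ∃ (X : Type) (_ : MeasurableSpace X) (_ : StandardBorelSpace X)
      (_ : AddAction G X) (μ : Measure X),
      Measurable (fun p : G × X => p.1 +ᵥ p.2) ∧ SigmaFinite μ ∧ (∀ x, μ {x} = 0) ∧
      (∀ g : G, (μ.map (fun x => g +ᵥ x)).AbsolutelyContinuous μ ∧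
        μ.AbsolutelyContinuous (μ.map (fun x => g +ᵥ x))) ∧ IsErg G X μ ∧
      ¬ ∃ ν : Measure X, SigmaFinite ν ∧ (∀ g : G, ν.map (fun x => g +ᵥ x) = ν) ∧
        ν.AbsolutelyContinuous μ ∧ μ.AbsolutelyContinuous ν := by
  obtain ⟨K, _, _, ⟨T⟩⟩ := exists_data
  let _ : ∀ n, MeasurableSpace (K n) := fun _ => ⊤
  have _ : ∀ n, DiscreteMeasurableSpace (K n) := fun _ => ⟨fun _ => trivial⟩
  obtain ⟨m, hm, h⟩ := T.exists_quasi
  have key : ∀ (g : T.G) (S : Set (Om K)), MeasurableSet S →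
      (m ((fun x => g +ᵥ x) ⁻¹' S) = 0 ↔ m S = 0) := by
    intro g S hS
    rw [h _ hS, h _ (T.meas_vadd_const g hS)]
    constructor
    · intro h1 g'
      have := h1 (-g + g')
      rwa [show (fun x : Om K => (-g + g') +ᵥ x) ⁻¹' ((fun x => g +ᵥ x) ⁻¹' S) =
        (fun x => g' +ᵥ x) ⁻¹' S from Set.ext fun x => by
          simp only [Set.mem_preimage]
          rw [← add_vadd, add_neg_cancel_left]] at this
    · intro h1 g'
      have := h1 (g + g')
      rwa [show (fun x : Om K => (g + g') +ᵥ x) ⁻¹' S =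
        (fun x => g' +ᵥ x) ⁻¹' ((fun x => g +ᵥ x) ⁻¹' S) from Set.ext fun x => by
          simp only [Set.mem_preimage]
          rw [add_vadd]] at this
  refine ⟨T.G, inferInstance, inferInstance, inferInstance, inferInstance, inferInstance,
    T.isLevy, Om K, inferInstance, inferInstance, inferInstance, m, T.meas_vadd, inferInstance,
    fun x => ?_, fun g => ⟨?_, ?_⟩, fun A hA hinv => ?_, ?_⟩
  · rw [h _ (measurableSet_singleton x)]
    intro g
    refine measure_mono_null (t := {(-g) +ᵥ x}) ?_ (no_atoms _ T.PE_atom _)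
    rintro y (rfl : g +ᵥ y = x)
    exact (neg_vadd_vadd g y).symm
  · refine Measure.AbsolutelyContinuous.mk fun S hS h0 => ?_
    rw [Measure.map_apply (T.meas_vadd_const g) hS]
    exact (key g S hS).2 h0
  · refine Measure.AbsolutelyContinuous.mk fun S hS h0 => ?_
    rw [Measure.map_apply (T.meas_vadd_const g) hS] at h0
    exact (key g S hS).1 h0
  · rcases T.zero_one T.PE T.PE_W A hA hinv with h0 | h0
    · refine Or.inl ((h _ hA).2 fun g => ?_)
      rwa [show (fun x => g +ᵥ x) ⁻¹' A = A from Set.ext fun x => hinv g x]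
    · refine Or.inr ((h _ hA.compl).2 fun g => ?_)
      rwa [show (fun x => g +ᵥ x) ⁻¹' Aᶜ = Aᶜ from Set.ext fun x => not_congr (hinv g x)]
  · rintro ⟨ν, _, h1, _, h2⟩
    refine T.no_inv ν h1 (Measure.AbsolutelyContinuous.mk fun S hS h0 => ?_)
    have := (h S hS).1 (h2 h0) 0
    simpa using this

end Pool.Agent.Results.MP_9152e2_an.NoQ1
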