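import Pool.Agent.H96.LV6

namespace Pool.Agent.Results.MP_9152e2_an.NoQ2

open MeasureTheory Pool.Agent.H96.LV

theorem result : ∃ (G : Type) (_ : NormedAddCommGroup G) (_ : CompleteSpace G)
    (_ : TopologicalSpace.SeparableSpace G) (_ : MeasurableSpace G) (_ : BorelSpace G),
    IsLevy G ∧ ∃ (X : Type) (_ : MeasurableSpace X) (_ : StandardBorelSpace X)
      (_ : AddAction G X) (μ : Measure X),
      Measurable (fun p : G × X => p.1 +ᵥ p.2) ∧ SigmaFinite μ ∧ (∀ x, μ {x} = 0) ∧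
      μ Set.univ = ⊤ ∧ (∀ g : G, μ.map (fun x => g +ᵥ x) = μ) ∧ IsErg G X μ := by
  obtain ⟨K, _, _, ⟨T⟩⟩ := exists_data
  let _ : ∀ n, MeasurableSpace (K n) := fun _ => ⊤
  have _ : ∀ n, DiscreteMeasurableSpace (K n) := fun _ => ⟨fun _ => trivial⟩
  exact ⟨T.G, inferInstance, inferInstance, inferInstance, inferInstance, inferInstance, T.isLevy,
    Om K, inferInstance, inferInstance, inferInstance, T.nu, T.meas_vadd, T.nu_sigma, T.nu_atom,
    T.nu_inf, T.nu_inv, T.nu_erg⟩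

end Pool.Agent.Results.MP_9152e2_an.NoQ2
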